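import Pool.Agent.TH201.PH.Count

/-!
# Philippon's inequality has few exceptions

For all constants `α ≥ 1`, `β ≥ 0`, `ε < 1/2`, `B` with `ε B ≥ 2` and every `δ > 0`, the pairs
`(x, y)` with `H(y) ≤ Y` (and `x` arbitrary) which violate Philippon's inequality are finite in
number, at most `C Y ^ (2/α + δ)`, and for every fixed `x` at most `C Y ^ (1/(αB) + δ)` of the `y`
with `H(y) ≤ Y` violate it, with `C` independent of `x`.
-/

set_option autoImplicit false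

namespace Pool.Agent.Results.MP_05f553_nt.FewExceptions

open Pool.Agent.TH201.PH

/-- The logarithmic height `log max (|a|, |b|)` of `r = a / b` (lowest terms). -/
noncomputable def ht (r : ℚ) : ℝ := Real.log (max |((r.num : ℤ) : ℝ)| ((r.den : ℕ) : ℝ))

/-- The inequality of the question for the pair `(x, y)`; the sums are over the primes which divide
the numerator of `x y ^ B + 1`. -/
def Holds (B : ℕ) (α β ε : ℝ) (x y : ℚ) : Prop :=
  -(∑ p ∈ (x * y ^ B + 1).num.natAbs.primeFactors,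
      Real.log ((padicNorm p (x * y ^ B + 1) : ℚ) : ℝ))
    ≤ α * (B : ℝ) * ht x + ε * (B : ℝ) * ht y
      + (B : ℝ) * (α * (B : ℝ) + ε) *
          (β + ∑ p ∈ (x * y ^ B + 1).num.natAbs.primeFactors, Real.log (p : ℝ))

/-- The pairs of nonzero rational numbers with `x y ^ B ≠ 1, -1`, `H(y) ≤ Y`, for which the
inequality is false. -/
def Exceptions (B : ℕ) (α β ε Y : ℝ) : Set (ℚ × ℚ) :=
  {t | t.1 ≠ 0 ∧ t.2 ≠ 0 ∧ t.1 * t.2 ^ B ≠ 1 ∧ t.1 * t.2 ^ B ≠ -1 ∧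
    max |((t.2.num : ℤ) : ℝ)| ((t.2.den : ℕ) : ℝ) ≤ Y ∧ ¬ Holds B α β ε t.1 t.2}

lemma rad_eq (n : ℕ) : Pool.Agent.H78R2.Abc.rad n = Pool.Agent.H785R2.ABC.rad n := rfl

lemma bad_of_mem {B : ℕ} {α β ε Y : ℝ} {t : ℚ × ℚ} (ht0 : t ∈ Exceptions B α β ε Y) :
    Bad B α β ε t ∧ (H t.2 : ℝ) ≤ Y := by
  obtain ⟨hx, hy, -, h2, h3, h4⟩ := ht0
  have hN : t.1 * t.2 ^ B + 1 ≠ 0 := by
    intro h
    exact h2 (eq_neg_of_add_eq_zero_left h)
  rw [← H_cast] at h3
  refine ⟨⟨hx, hy, hN, ?_⟩, h3⟩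
  unfold Holds at h4
  rw [not_le] at h4
  have e1 := Pool.Agent.H78R2.Phil.lhs_eq hN
  have e2 := Pool.Agent.H78R2.Phil.rad_sum hN
  rw [Pool.Agent.H78R2.Phil.S_eq hN, finsum_mem_coe_finset] at e1 e2
  rw [e1, e2, rad_eq] at h4
  unfold ht at h4
  rw [← H_cast, ← H_cast] at h4
  exact h4

/-- **Philippon's inequality has few exceptions.** -/
theorem result (B : ℕ) (α β ε δ : ℝ) (hα : 1 ≤ α) (hβ : 0 ≤ β) (hε : ε < 1 / 2)
    (hB : 2 ≤ ε * B) (hδ : 0 < δ) :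
    ∃ C : ℝ, ∀ Y : ℝ, 1 ≤ Y →
      (Exceptions B α β ε Y).Finite ∧
      ((Exceptions B α β ε Y).ncard : ℝ) ≤ C * Y ^ (2 / α + δ) ∧
      ∀ x : ℚ, (({y : ℚ | (x, y) ∈ Exceptions B α β ε Y}.ncard : ℕ) : ℝ) ≤
        C * Y ^ (1 / (α * B) + δ) := by
  have hB5 : 5 ≤ B := by
    by_contra h
    have h1 : (B : ℝ) ≤ 4 := by exact_mod_cast (by omega : B ≤ 4)
    have h2 : (0 : ℝ) ≤ B := Nat.cast_nonneg B
    rcases h2.eq_or_lt with h3 | h3
    · rw [← h3] at hB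
      linarith
    · have h4 : ε * B < 1 / 2 * B := mul_lt_mul_of_pos_right hε h3
      linarith
  have hB0 : (0 : ℝ) < B := by exact_mod_cast (by omega : 0 < B)
  have hε0 : 0 ≤ ε := by
    by_contra h
    nlinarith
  obtain ⟨C1, hC1, h1⟩ := count B hB5 α β ε δ hα hβ hε0 hB hδ
  obtain ⟨C2, hC2, h2⟩ := count_fixed B hB5 α β ε δ hα hβ hε0 hB hδ
  refine ⟨max C1 C2, fun Y hY => ?_⟩
  have hfin : (Exceptions B α β ε Y).Finite := by
    by_contra hinf
    obtain ⟨T, hT, hcard⟩ := Set.Infinite.exists_subset_card_eq hinf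
      (⌊C1 * Y ^ (2 / α + δ)⌋₊ + 1)
    have h3 := h1 Y T (fun t ht => bad_of_mem (hT ht)) hY
    rw [hcard] at h3
    have h4 := Nat.lt_floor_add_one (C1 * Y ^ (2 / α + δ))
    push_cast at h3
    linarith
  refine ⟨hfin, ?_, fun x => ?_⟩
  · have h3 := h1 Y hfin.toFinset (fun t ht => bad_of_mem (hfin.mem_toFinset.1 ht)) hY
    rw [Set.ncard_eq_toFinset_card _ hfin]
    exact h3.trans (mul_le_mul_of_nonneg_right (le_max_left _ _) (by positivity))
  · have hfx : {y : ℚ | (x, y) ∈ Exceptions B α β ε Y}.Finite :=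
      hfin.preimage (Prod.mk_right_injective x).injOn
    have h3 := h2 Y x hfx.toFinset (fun y hy => bad_of_mem (hfx.mem_toFinset.1 hy)) hY
    rw [Set.ncard_eq_toFinset_card _ hfx]
    exact h3.trans (mul_le_mul_of_nonneg_right (le_max_right _ _) (by positivity))

end Pool.Agent.Results.MP_05f553_nt.FewExceptions
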