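import Mathlib
import Pool.Agent.TH876.TM.Ext
import Pool.Agent.TH876.TM.Local
import Pool.Agent.TH876.TM.Glob
import Pool.Agent.TH876.TM.Scale
import Pool.Agent.TH876.TM.Count
import Pool.Agent.TH876.TM.Pairs
import Pool.Agent.TH876.TM.Exc

/-!
# Philippon's inequality for a given coefficient

For given `x` and `B ≥ 3` we count the `y` for which the inequality fails.
-/

set_option autoImplicit false

namespace Pool.Agent.Results.MP_05f553_nt.FixedCoefficient

/-- the logarithmic height `h(r)` of a rational number -/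
noncomputable def ht (r : ℚ) : ℝ := Real.log (max |(r.num : ℝ)| (r.den : ℝ))

/-- Philippon's inequality with the constants `B, α, β, ε` for `x, y`: the left side is the
logarithm of the numerator of `x y ^ B + 1`, the sum on the right side is over the primes dividing
this numerator -/
def Holds (B : ℕ) (α β ε : ℝ) (x y : ℚ) : Prop :=
  Real.log |((x * y ^ B + 1).num : ℝ)| ≤ α * B * ht x + ε * B * ht y +
    B * (α * B + ε) * (β + ∑ p ∈ (x * y ^ B + 1).num.natAbs.primeFactors, Real.log (p : ℝ))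

/-- the nonzero `y` of height at most `Y` for which the inequality fails and the numerator of
`x y ^ B + 1` has prime factors at most `z` only -/
def Exc (B : ℕ) (α β ε : ℝ) (x : ℚ) (z Y : ℝ) : Set ℚ :=
  {y | y ≠ 0 ∧ x * y ^ B + 1 ≠ 0 ∧ ht y ≤ Real.log Y ∧
    (∀ p ∈ (x * y ^ B + 1).num.natAbs.primeFactors, (p : ℝ) ≤ z) ∧ ¬ Holds B α β ε x y}

/-- Let `B ≥ 3`, `α ≥ 1`, `β ≥ 0`, `0 < ε < 1/2`, `x ≠ 0` rational and `δ > 0`. For all `z, Y ≥ 1`
there are at most `C z Y ^ (2 (1 - ε) / (B (α B + ε)) + δ)` nonzero rationals `y` of height at most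
`Y` for which Philippon's inequality fails and the numerator of `x y ^ B + 1` has prime factors at
most `z` only. -/
theorem result (B : ℕ) (α β ε : ℝ) (x : ℚ) (hB : 3 ≤ B) (hα : 1 ≤ α) (hβ : 0 ≤ β) (hε : 0 < ε)
    (hε2 : ε < 1 / 2) (hx : x ≠ 0) (δ : ℝ) (hδ : 0 < δ) :
    ∃ C : ℝ, ∀ z Y : ℝ, 1 ≤ z → 1 ≤ Y → (Exc B α β ε x z Y).Finite ∧
      ((Exc B α β ε x z Y).ncard : ℝ) ≤
        C * z * Y ^ (2 * (1 - ε) / (B * (α * B + ε)) + δ) :=
  Pool.Agent.TH876.TM.exc (Pool.Agent.TH876.TM.pairs (Pool.Agent.TH876.TM.count ℚ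
    (Pool.Agent.TH876.TM.local_sys ℚ (Pool.Agent.TH876.TM.ext ℚ)) (Pool.Agent.TH876.TM.glob ℚ)
    (Pool.Agent.TH876.TM.scale ℚ (Pool.Agent.TH876.TM.glob ℚ)))) B α β ε x hB hα hβ hε hε2 hx δ hδ

end Pool.Agent.Results.MP_05f553_nt.FixedCoefficient
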