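import Pool.Agent.H78R2.Phil.Main

/-!
# Philippon's conjecture is equivalent to the weak form of the abc conjecture

`Phil B α β ε` is the inequality of the question for the constants `B, α, β, ε`.  The question
(`Phil B α β ε` for some `B ≥ 1`, `α ≥ 1`, `β ≥ 0` and `0 < ε < 1/2`) is equivalent to Oesterlé's weak
form of the abc conjecture (`c < rad (a b c) ^ M` for an absolute constant `M`), and to two much
stronger looking forms of itself: `α = 1` and one `β` for every `ε > 0` and all large `B`, and the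
same `α, β` for all `ε > 0`.
-/

set_option autoImplicit false

namespace Pool.Agent.Results.MP_05f553_nt.WeakAbcEquivalence

open Pool.Agent.H78R2.Phil Pool.Agent.H78R2.Abc

/-- The inequality of the question, for all nonzero rationals `x, y` with `x y ^ B ≠ 1, -1`; the
sums are over the primes which divide the numerator of `x y ^ B + 1`. -/
def Phil (B : ℕ) (α β ε : ℝ) : Prop :=
  ∀ x y : ℚ, x ≠ 0 → y ≠ 0 → x * y ^ B ≠ 1 → x * y ^ B ≠ -1 →
    -(∑ p ∈ (x * y ^ B + 1).num.natAbs.primeFactors,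
        Real.log ((padicNorm p (x * y ^ B + 1) : ℚ) : ℝ))
      ≤ α * (B : ℝ) * Real.log (max |((x.num : ℤ) : ℝ)| ((x.den : ℕ) : ℝ))
        + ε * (B : ℝ) * Real.log (max |((y.num : ℤ) : ℝ)| ((y.den : ℕ) : ℝ))
        + (B : ℝ) * (α * (B : ℝ) + ε) *
            (β + ∑ p ∈ (x * y ^ B + 1).num.natAbs.primeFactors, Real.log (p : ℝ))

/-- The radical: the product of the primes dividing `n`. -/
def radical (n : ℕ) : ℕ := ∏ p ∈ n.primeFactors, p

lemma phil_iff (B : ℕ) (α β ε : ℝ) : Phil B α β ε ↔ Ineq ε α β B := by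
  unfold Phil Ineq
  refine forall_congr' fun x => forall_congr' fun y => imp_congr_right fun _ =>
    imp_congr_right fun _ => imp_congr_right fun _ => ?_
  have e : x * y ^ B ≠ -1 ↔ x * y ^ B + 1 ≠ 0 := by
    rw [Ne, Ne, add_eq_zero_iff_eq_neg]
  rw [e]
  refine imp_congr_right fun h => ?_
  rw [S_eq h, finsum_mem_coe_finset, finsum_mem_coe_finset]
  unfold ht
  constructor <;> intro hh <;> refine hh.trans (le_of_eq ?_) <;> ring

/-- the abc inequality with exponent `K` gives the inequality for every `B > 2 K` -/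
lemma phil_of_abc {K κ : ℝ} (hK : 1 ≤ K) (hκ : 1 ≤ κ) (h : AbcWith K κ) {B : ℕ}
    (hB : 2 * K < B) : ∃ α β : ℝ, 1 ≤ α ∧ 0 ≤ β ∧ ∀ ε : ℝ, 0 < ε → Ineq ε α β B := by
  have hD : 0 < (B : ℝ) - 2 * K := by linarith
  have hlκ : 0 ≤ Real.log κ := Real.log_nonneg hκ
  obtain ⟨D, hDe⟩ : ∃ D : ℝ, D = (B : ℝ) - 2 * K := ⟨_, rfl⟩
  rw [← hDe] at hD
  refine ⟨2 * K + 2 * K * (2 + 2 * K) / D, (1 + 2 * K / D) * Real.log κ, ?_, by positivity,
    fun ε hε => ?_⟩
  · have : 0 ≤ 2 * K * (2 + 2 * K) / D := by positivity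
    linarith
  intro x y hx hy _ hN
  obtain ⟨h1, h2⟩ := bounds hκ h (by linarith) hx hy hN
  rw [lhs_eq hN, rad_sum hN]
  refine h2.trans ?_
  have hB1 : (1 : ℝ) ≤ B := by linarith
  have hhx := ht_nonneg x
  have hhy := ht_nonneg y
  have hR : 0 ≤ Real.log (rad (x * y ^ B + 1).num.natAbs) := by
    apply Real.log_nonneg
    exact_mod_cast rad_pos _
  set R := Real.log (rad (x * y ^ B + 1).num.natAbs)
  have h3 : B * ht y ≤ 2 * ht x + ht (x * y ^ B) := ht_lower hx hy B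
  have h5 : D * ht y ≤ Real.log κ + (2 + 2 * K) * ht x + K * R := by
    rw [hDe]; nlinarith
  have h6 : ht y ≤ (Real.log κ + (2 + 2 * K) * ht x + K * R) / D := by
    rw [le_div_iff₀ hD]; linarith
  have h7 : 2 * K * ht y ≤ 2 * K * ((Real.log κ + (2 + 2 * K) * ht x + K * R) / D) :=
    mul_le_mul_of_nonneg_left h6 (by linarith)
  have e0 : 2 * K * ((Real.log κ + (2 + 2 * K) * ht x + K * R) / D) =
      2 * K / D * Real.log κ + 2 * K * (2 + 2 * K) / D * ht x + 2 * K * K / D * R := by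
    field_simp
  have e1 : 0 ≤ 2 * K * (2 + 2 * K) / D - 2 * K * K / D := by
    rw [← sub_div]
    apply div_nonneg _ hD.le
    nlinarith
  obtain ⟨α, hα⟩ : ∃ α : ℝ, α = 2 * K + 2 * K * (2 + 2 * K) / D := ⟨_, rfl⟩
  obtain ⟨β, hβ⟩ : ∃ β : ℝ, β = (1 + 2 * K / D) * Real.log κ := ⟨_, rfl⟩
  rw [← hα, ← hβ]
  have hα1 : 1 ≤ α := by
    have : 0 ≤ 2 * K * (2 + 2 * K) / D := by positivity
    linarith
  have hβ0 : 0 ≤ β := by rw [hβ]; positivity
  have hαR : (K + 2 * K * K / D) * R ≤ α * R := mul_le_mul_of_nonneg_right (by linarith) hR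
  have main : Real.log κ + K * (2 * ht x + 2 * ht y + R) ≤ α * ht x + (β + α * R) := by
    rw [hβ]
    nlinarith
  refine main.trans ?_
  have f1 : α * ht x ≤ B * (α * ht x) := le_mul_of_one_le_left (by positivity) hB1
  have f2 : 0 ≤ B * (ε * ht y) := by positivity
  have f4 : α ≤ B * (α * B + ε) := by
    have g1 : α ≤ α * B := le_mul_of_one_le_right (by linarith) hB1
    have g2 : α * B + ε ≤ B * (α * B + ε) :=
      le_mul_of_one_le_left (by positivity) hB1
    linarith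
  have f3 : 1 ≤ B * (α * B + ε) := hα1.trans f4
  have f5 : β ≤ B * (α * B + ε) * β := le_mul_of_one_le_left hβ0 f3
  have f6 : α * R ≤ B * (α * B + ε) * R := mul_le_mul_of_nonneg_right f4 hR
  nlinarith

lemma ineq_mono {B : ℕ} {δ ε β : ℝ} (hβ : 0 ≤ β) (h : δ ≤ ε) (h1 : Ineq δ 1 β B) :
    Ineq ε 1 β B := by
  intro x y hx hy h2 h3
  refine (h1 x y hx hy h2 h3).trans ?_
  rw [rad_sum h3]
  have hy0 := ht_nonneg y
  have hR : 0 ≤ Real.log (rad (x * y ^ B + 1).num.natAbs) := by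
    apply Real.log_nonneg
    exact_mod_cast rad_pos _
  gcongr

/-- the abc inequality for some exponent, in the form without a constant -/
lemma weak_iff : (∃ K κ : ℝ, 1 ≤ K ∧ 1 ≤ κ ∧ AbcWith K κ) ↔
    ∃ M : ℝ, ∀ a b c : ℕ, 0 < a → 0 < b → Nat.Coprime a b → a + b = c →
      (c : ℝ) < (radical (a * b * c) : ℝ) ^ M := by
  constructor
  · rintro ⟨K, κ, hK, hκ, h⟩
    obtain ⟨m, hm⟩ := pow_unbounded_of_one_lt κ (one_lt_two (α := ℝ))
    refine ⟨m + K, fun a b c ha hb hab hc => ?_⟩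
    have h1 := h a b c ha hb hab hc
    have hr2 : (2 : ℝ) ≤ (radical (a * b * c) : ℝ) := by
      have hc2 : 2 ≤ c := by omega
      obtain ⟨p, hp, hpc⟩ := Nat.exists_prime_and_dvd (by omega : c ≠ 1)
      have hmem : p ∈ (a * b * c).primeFactors := by
        rw [Nat.mem_primeFactors]
        exact ⟨hp, hpc.mul_left _, by positivity⟩
      have h2 : p ≤ radical (a * b * c) := by
        unfold radical
        exact Nat.le_of_dvd (Finset.prod_pos fun q hq => (Nat.prime_of_mem_primeFactors hq).pos)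
          (Finset.dvd_prod_of_mem _ hmem)
      exact_mod_cast hp.two_le.trans h2
    have hr0 : (0 : ℝ) < (radical (a * b * c) : ℝ) := by linarith
    rw [Real.rpow_add hr0, Real.rpow_natCast]
    have h3 : κ < (radical (a * b * c) : ℝ) ^ m :=
      hm.trans_le (pow_le_pow_left₀ (by norm_num) hr2 m)
    exact lt_of_le_of_lt h1 (mul_lt_mul_of_pos_right h3 (Real.rpow_pos_of_pos hr0 K))
  · rintro ⟨M, h⟩
    refine ⟨max M 1, 1, le_max_right _ _, le_rfl, fun a b c ha hb hab hc => ?_⟩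
    have h1 := h a b c ha hb hab hc
    rw [one_mul]
    refine h1.le.trans (Real.rpow_le_rpow_of_exponent_le ?_ (le_max_left _ _))
    exact_mod_cast (rad_pos (a * b * c))

/-- **Philippon's conjecture is equivalent to the weak abc conjecture.**

The following are equivalent:
* the statement of the question: `Phil B α β ε` for some `B ≥ 1`, `α ≥ 1`, `β ≥ 0`, `0 < ε < 1/2`;
* Oesterlé's weak abc conjecture: `c < rad (a b c) ^ M` for all coprime positive integers `a, b` with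
  sum `c`, for an absolute constant `M`;
* there is a `β ≥ 0` such that for every `ε > 0` the inequality `Phil B 1 β ε` holds for all
  large `B`;
* for all large `B` there are `α ≥ 1` and `β ≥ 0` such that `Phil B α β ε` holds for every
  `ε > 0`. -/
theorem result :
    List.TFAE [
      ∃ B : ℕ, 0 < B ∧ ∃ α β ε : ℝ, 1 ≤ α ∧ 0 ≤ β ∧ 0 < ε ∧ ε < 1 / 2 ∧ Phil B α β ε,
      ∃ M : ℝ, ∀ a b c : ℕ, 0 < a → 0 < b → Nat.Coprime a b → a + b = c →
        (c : ℝ) < (radical (a * b * c) : ℝ) ^ M,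
      ∃ β : ℝ, 0 ≤ β ∧ ∀ ε : ℝ, 0 < ε → ∃ B₀ : ℕ, ∀ B : ℕ, B₀ ≤ B → Phil B 1 β ε,
      ∃ B₀ : ℕ, ∀ B : ℕ, B₀ ≤ B → ∃ α β : ℝ, 1 ≤ α ∧ 0 ≤ β ∧ ∀ ε : ℝ, 0 < ε → Phil B α β ε] := by
  tfae_have 1 → 2 := by
    rintro ⟨B, hB, α, β, ε, hα, hβ, hε, hε2, h⟩
    rw [phil_iff] at h
    have h1 := abc_of_ineq hε (by linarith) (by linarith) hβ hB h
    rw [← weak_iff]
    refine ⟨max (2 * (B * (α * B + ε)) / (1 - ε)) 1, 2 * Real.exp (B * (α * B + ε) * β / (1 - ε)),
      le_max_right _ _, ?_, fun a b c ha hb hab hc => (h1 a b c ha hb hab hc).trans ?_⟩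
    · have h3 : 0 ≤ B * (α * B + ε) * β / (1 - ε) := by
        have : 0 < 1 - ε := by linarith
        positivity
      have := Real.one_le_exp h3
      linarith
    · refine mul_le_mul_of_nonneg_left ?_ (by positivity)
      refine Real.rpow_le_rpow_of_exponent_le ?_ (le_max_left _ _)
      exact_mod_cast (rad_pos (a * b * c))
  tfae_have 2 → 3 := by
    intro h
    rw [← weak_iff] at h
    obtain ⟨K, κ, hK, hκ, h⟩ := h
    refine ⟨Real.log κ, Real.log_nonneg hκ, fun ε hε => ?_⟩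
    -- it is enough to treat `min ε 1`
    obtain ⟨δ, hδ⟩ : ∃ δ : ℝ, δ = min ε 1 := ⟨_, rfl⟩
    have hδ0 : 0 < δ := by rw [hδ]; exact lt_min hε one_pos
    have hδ1 : δ ≤ 1 := by rw [hδ]; exact min_le_right _ _
    have hδε : δ ≤ ε := by rw [hδ]; exact min_le_left _ _
    obtain ⟨B₀, hB₀⟩ := exists_nat_ge (2 * K / δ)
    refine ⟨B₀, fun B hB => ?_⟩
    rw [phil_iff]
    have h1 : Ineq δ 1 (Real.log κ) B := by
      refine ineq_of_abc hK hκ h hδ0 hδ1 ?_
      have : 2 * K / δ ≤ B := hB₀.trans (by exact_mod_cast hB)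
      rw [div_le_iff₀ hδ0] at this
      linarith
    exact ineq_mono (Real.log_nonneg hκ) hδε h1
  tfae_have 3 → 1 := by
    rintro ⟨β, hβ, h⟩
    obtain ⟨B₀, h1⟩ := h (1 / 4) (by norm_num)
    exact ⟨B₀ + 1, by omega, 1, β, 1 / 4, le_rfl, hβ, by norm_num, by norm_num,
      h1 _ (by omega)⟩
  tfae_have 2 → 4 := by
    intro h
    rw [← weak_iff] at h
    obtain ⟨K, κ, hK, hκ, h⟩ := h
    obtain ⟨B₀, hB₀⟩ := exists_nat_gt (2 * K)
    refine ⟨B₀, fun B hB => ?_⟩
    obtain ⟨α, β, h1, h2, h3⟩ := phil_of_abc hK hκ h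
      (hB₀.trans_le (by exact_mod_cast hB) : 2 * K < (B : ℝ))
    exact ⟨α, β, h1, h2, fun ε hε => (phil_iff _ _ _ _).2 (h3 ε hε)⟩
  tfae_have 4 → 1 := by
    rintro ⟨B₀, h⟩
    obtain ⟨α, β, h1, h2, h3⟩ := h (B₀ + 1) (by omega)
    exact ⟨B₀ + 1, by omega, α, β, 1 / 4, h1, h2, by norm_num, by norm_num, h3 _ (by norm_num)⟩
  tfae_finish

end Pool.Agent.Results.MP_05f553_nt.WeakAbcEquivalence
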